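import Mathlib

namespace Pool.Agent.MP_b5e119_nt.H62

open Finset

theorem card_le_of_dvd (A : Finset ℕ) (q H : ℕ)
    (h : ∀ x ∈ A, ∀ y ∈ A, x ≤ y → q ∣ y - x ∧ y - x ≤ H) : A.card ≤ H / q + 1 := by
  rcases A.eq_empty_or_nonempty with rfl | hne
  · simp
  · have hx0 : A.min' hne ∈ A := A.min'_mem hne
    have : A.card ≤ (range (H / q + 1)).card := by
      apply card_le_card_of_injOn (fun y => (y - A.min' hne) / q)
      · intro y hy
        have := h _ hx0 y hy (A.min'_le y hy)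
        simp only [coe_range, Set.mem_Iio]
        exact Nat.lt_succ_of_le (Nat.div_le_div_right this.2)
      · intro y hy z hz hyz
        have h1 := h _ hx0 y hy (A.min'_le y hy)
        have h2 := h _ hx0 z hz (A.min'_le z hz)
        have h3 := A.min'_le y hy
        have h4 := A.min'_le z hz
        have e1 := Nat.div_mul_cancel h1.1
        have e2 := Nat.div_mul_cancel h2.1
        simp only at hyz
        rw [hyz] at e1
        omega
    simpa using this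

/-- A chain of at most `l` tracked steps, at least `k` of them big. -/
def Ch (T S V W M : ℕ) : ℕ → ℕ → ℕ → ℕ → Prop
  | 0, k, _, _ => k = 0
  | l + 1, k, u, n => k = 0 ∨ ∃ n' e d, n ≤ n' ∧ n' ≤ T ∧ u ≤ d * e ∧
      d * e ≤ u + 2 * V * (n' - n) ∧ d * e ≤ S ∧ 0 < e ∧ d ∣ M - n' ∧
      ((W ≤ d ∧ Ch T S V W M l (k - 1) (d * e + 2 * d - 1) (n' + 1)) ∨
        (V ≤ d ∧ Ch T S V W M l k (d * e + 2 * d - 1) (n' + 1)))

/-- The weight of a tracked step. -/
noncomputable def wt (L M G n d : ℕ) : ℝ :=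
  if Nat.gcd L d ∣ M - n ∧ Nat.gcd L d ≤ G then (Nat.gcd L d : ℝ) / d else 0

theorem wt_inner (L M G n S U u H e : ℕ) (hU : 0 < U) (he : 0 < e) (hn : n < M) :
    ∑ d ∈ (Icc U S).filter (fun d => u ≤ d * e ∧ d * e ≤ u + H), wt L M G n d ≤
      ((M - n).divisors.card : ℝ) * ((H / e + G) / U) := by
  classical
  set F := (Icc U S).filter (fun d => u ≤ d * e ∧ d * e ≤ u + H) with hF
  have hU' : (0 : ℝ) < U := by exact_mod_cast hU
  have he' : (0 : ℝ) < e := by exact_mod_cast he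
  have h1 : ∀ d ∈ F, wt L M G n d ≤
      ∑ g ∈ (M - n).divisors, if g ∣ d ∧ g ≤ G then (g : ℝ) / U else 0 := by
    intro d hd
    have hd' : U ≤ d := (mem_Icc.1 (mem_filter.1 hd).1).1
    have hnn : ∀ g ∈ (M - n).divisors, (0 : ℝ) ≤ if g ∣ d ∧ g ≤ G then (g : ℝ) / U else 0 := by
      intro g _
      split_ifs
      · positivity
      · exact le_rfl
    unfold wt
    split_ifs with hc
    · have hm : Nat.gcd L d ∈ (M - n).divisors := Nat.mem_divisors.2 ⟨hc.1, by omega⟩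
      refine le_trans ?_ (single_le_sum hnn hm)
      rw [if_pos ⟨Nat.gcd_dvd_right _ _, hc.2⟩]
      have : (U : ℝ) ≤ d := by exact_mod_cast hd'
      gcongr
    · exact sum_nonneg hnn
  refine le_trans (sum_le_sum h1) ?_
  rw [sum_comm]
  have h2 : ∀ g ∈ (M - n).divisors,
      (∑ d ∈ F, if g ∣ d ∧ g ≤ G then (g : ℝ) / U else 0) ≤ (H / e + G) / U := by
    intro g hg
    have hg0 : 0 < g := Nat.pos_of_mem_divisors hg
    have hg0' : (0 : ℝ) < g := by exact_mod_cast hg0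
    by_cases hG : g ≤ G
    · simp only [hG, and_true]
      rw [← sum_filter, sum_const, nsmul_eq_mul]
      have hc : (F.filter (fun d => g ∣ d)).card ≤ (H / e) / g + 1 := by
        apply card_le_of_dvd
        intro x hx y hy hxy
        obtain ⟨hx1, hx2⟩ := mem_filter.1 hx
        obtain ⟨hy1, hy2⟩ := mem_filter.1 hy
        obtain ⟨-, hx3, -⟩ := mem_filter.1 hx1
        obtain ⟨-, -, hy3⟩ := mem_filter.1 hy1
        refine ⟨Nat.dvd_sub hy2 hx2, ?_⟩
        rw [Nat.le_div_iff_mul_le he, Nat.sub_mul]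
        omega
      have hc' : ((F.filter (fun d => g ∣ d)).card : ℝ) ≤ (H / e) / g + 1 := by
        have h3 : (((H / e) / g : ℕ) : ℝ) ≤ (H / e) / g := by
          refine le_trans Nat.cast_div_le ?_
          gcongr
          exact Nat.cast_div_le
        have h4 : ((F.filter (fun d => g ∣ d)).card : ℝ) ≤ (((H / e) / g : ℕ) : ℝ) + 1 := by
          exact_mod_cast hc
        linarith
      have hG' : (g : ℝ) ≤ G := by exact_mod_cast hG
      calc _ ≤ ((H / e) / g + 1) * ((g : ℝ) / U) := by gcongr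
        _ = (H / e + g) / U := by field_simp
        _ ≤ _ := by gcongr
    · simp only [hG, and_false, if_false, sum_const_zero]
      positivity
  refine le_trans (sum_le_sum h2) ?_
  rw [sum_const, nsmul_eq_mul]

/-- The index set of a tracked step: time, cofactor, size. -/
def idx (T S U u H : ℕ) : Finset (ℕ × ℕ × ℕ) :=
  (range (T + 1) ×ˢ (Icc 1 (S / U) ×ˢ Icc U S)).filter
    (fun p => u ≤ p.2.2 * p.2.1 ∧ p.2.2 * p.2.1 ≤ u + H)

theorem wt_sum (L M G T S U u H D : ℕ) (h : ℝ) (hU : 0 < U) (hT : T < M)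
    (hD : ∑ n ∈ range (T + 1), (M - n).divisors.card ≤ D)
    (hh : ∑ e ∈ Icc 1 (S / U), (1 / (e : ℝ)) ≤ h) :
    ∑ p ∈ idx T S U u H, wt L M G p.1 p.2.2 ≤ (D : ℝ) / U * (H * h + G * (S / U : ℕ)) := by
  classical
  have hU' : (0 : ℝ) < U := by exact_mod_cast hU
  have h0 : (0 : ℝ) ≤ h := le_trans (sum_nonneg fun _ _ => by positivity) hh
  unfold idx
  rw [sum_filter, sum_product]
  have h1 : ∀ n ∈ range (T + 1),
      (∑ q ∈ Icc 1 (S / U) ×ˢ Icc U S,
        if u ≤ q.2 * q.1 ∧ q.2 * q.1 ≤ u + H then wt L M G n q.2 else 0) ≤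
      ((M - n).divisors.card : ℝ) * ((H * h + G * (S / U : ℕ)) / U) := by
    intro n hn
    have hn' : n < M := by have := mem_range.1 hn; omega
    rw [sum_product]
    have h2 : ∀ e ∈ Icc 1 (S / U),
        (∑ d ∈ Icc U S, if u ≤ d * e ∧ d * e ≤ u + H then wt L M G n d else 0) ≤
        ((M - n).divisors.card : ℝ) * ((H / e + G) / U) := by
      intro e he
      rw [← sum_filter]
      exact wt_inner L M G n S U u H e hU (mem_Icc.1 he).1 hn'
    refine le_trans (sum_le_sum h2) ?_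
    rw [← mul_sum, ← sum_div, sum_add_distrib, sum_const, nsmul_eq_mul]
    have h3 : ∑ e ∈ Icc 1 (S / U), (H : ℝ) / e ≤ H * h := by
      calc _ = (H : ℝ) * ∑ e ∈ Icc 1 (S / U), (1 / (e : ℝ)) := by
            rw [mul_sum]; exact sum_congr rfl fun e _ => by ring
        _ ≤ _ := by gcongr
    have h4 : ((Icc 1 (S / U)).card : ℝ) = (S / U : ℕ) := by simp
    rw [h4, mul_comm ((S / U : ℕ) : ℝ)]
    gcongr
  refine le_trans (sum_le_sum h1) ?_
  rw [← sum_mul]
  have h5 : ∑ n ∈ range (T + 1), ((M - n).divisors.card : ℝ) ≤ D := by exact_mod_cast hD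
  calc _ ≤ (D : ℝ) * ((H * h + G * (S / U : ℕ)) / U) := by gcongr
    _ = _ := by ring


open Classical in
theorem count_class (A : Finset ℕ) (Y L M0 : ℕ) (P : ℕ → Prop) (hA : ∀ M ∈ A, M ≤ Y)
    (hL : 0 < L) (hLY : L ≤ Y) :
    ((A.filter (fun M => M ≡ M0 [MOD L] ∧ P M)).card : ℝ) ≤ 2 * Y / L := by
  have h1 : (A.filter (fun M => M ≡ M0 [MOD L] ∧ P M)).card ≤ Y / L + 1 := by
    apply card_le_of_dvd
    intro x hx y hy hxy
    obtain ⟨hx1, hx2, -⟩ := mem_filter.1 hx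
    obtain ⟨hy1, hy2, -⟩ := mem_filter.1 hy
    refine ⟨(Nat.modEq_iff_dvd' hxy).1 (hx2.trans hy2.symm), ?_⟩
    have := hA y hy1
    omega
  have hL' : (0 : ℝ) < L := by exact_mod_cast hL
  have h2 : ((Y / L : ℕ) : ℝ) ≤ Y / L := Nat.cast_div_le
  have h3 : (1 : ℝ) ≤ Y / L := by
    rw [le_div_iff₀ hL']; simpa using (by exact_mod_cast hLY : (L : ℝ) ≤ Y)
  have h4 : ((A.filter (fun M => M ≡ M0 [MOD L] ∧ P M)).card : ℝ) ≤ ((Y / L : ℕ) : ℝ) + 1 := by
    exact_mod_cast h1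
  have h5 : (2 : ℝ) * Y / L = Y / L + Y / L := by ring
  linarith

open Classical in
theorem count_ch (T S V lam Y D r : ℕ) (B h : ℝ) (A : Finset ℕ)
    (hA : ∀ M ∈ A, T < M ∧ M ≤ Y ∧ ∑ n ∈ range (T + 1), (M - n).divisors.card ≤ D)
    (hV : 0 < V) (hlam : 0 < lam) (hT : 0 < T) (hS : 0 < S) (hB1 : 1 ≤ B)
    (hh : ∑ e ∈ Icc 1 (S / V), (1 / (e : ℝ)) ≤ h)
    (hB : (D : ℝ) / V * ((2 * V * T : ℕ) * h + (T ^ r : ℕ) * (S / V : ℕ)) ≤ B) :
    ∀ l k u n L M0 i : ℕ, M0 ∈ A → 0 < L → i + l ≤ r → L * S ^ l ≤ Y →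
      (∀ n', n ≤ n' → n' ≤ T → Nat.gcd L (M0 - n') ≤ T ^ i) →
      ((A.filter (fun M => M ≡ M0 [MOD L] ∧ Ch T S V (lam * V) M l k u n)).card : ℝ) ≤
        2 * Y / L * (2 * B) ^ l / (lam : ℝ) ^ k := by
  have hlam' : (0 : ℝ) < lam := by exact_mod_cast hlam
  have hV' : (0 : ℝ) < V := by exact_mod_cast hV
  have h0 : (0 : ℝ) ≤ h := le_trans (sum_nonneg fun _ _ => by positivity) hh
  have hzero : ∀ l u n L M0 : ℕ, 0 < L → L * S ^ l ≤ Y →
      ((A.filter (fun M => M ≡ M0 [MOD L] ∧ Ch T S V (lam * V) M l 0 u n)).card : ℝ) ≤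
        2 * Y / L * (2 * B) ^ l / (lam : ℝ) ^ 0 := by
    intro l u n L M0 hL hLY
    have h1 : L ≤ Y := le_trans (Nat.le_mul_of_pos_right _ (pow_pos hS l)) hLY
    refine le_trans (count_class A Y L M0 _ (fun M hM => (hA M hM).2.1) hL h1) ?_
    rw [pow_zero, div_one]
    have h2 : (1 : ℝ) ≤ (2 * B) ^ l := one_le_pow₀ (by linarith)
    have h3 : (0 : ℝ) ≤ 2 * Y / L := by positivity
    nlinarith
  intro l
  induction l with
  | zero =>
    intro k u n L M0 i hM0 hL hi hLY hinv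
    rcases Nat.eq_zero_or_pos k with rfl | hk
    · exact hzero 0 u n L M0 hL hLY
    · have : A.filter (fun M => M ≡ M0 [MOD L] ∧ Ch T S V (lam * V) M 0 k u n) = ∅ := by
        apply filter_eq_empty_iff.2
        intro M _ hM
        have := hM.2
        simp only [Ch] at this
        omega
      rw [this]
      simp only [card_empty, Nat.cast_zero]
      positivity
  | succ l ih =>
    intro k u n L M0 i hM0 hL hi hLY hinv
    rcases Nat.eq_zero_or_pos k with rfl | hk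
    · exact hzero _ u n L M0 hL hLY
    have hL' : (0 : ℝ) < L := by exact_mod_cast hL
    obtain ⟨hTM, -, hD⟩ := hA M0 hM0
    -- one branch
    have key : ∀ U k' : ℕ, V ≤ U →
        (((idx T S U u (2 * V * T)).biUnion (fun p => A.filter (fun M => M ≡ M0 [MOD L] ∧
          (n ≤ p.1 ∧ p.2.2 ∣ M - p.1 ∧ Ch T S V (lam * V) M l k'
            (p.2.2 * p.2.1 + 2 * p.2.2 - 1) (p.1 + 1))))).card : ℝ) ≤
          2 * Y / L * (2 * B) ^ l / (lam : ℝ) ^ k' * (B * V / U) := by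
      intro U k' hU
      have hU0 : 0 < U := lt_of_lt_of_le hV hU
      have hU' : (0 : ℝ) < U := by exact_mod_cast hU0
      have hterm : ∀ p ∈ idx T S U u (2 * V * T),
          ((A.filter (fun M => M ≡ M0 [MOD L] ∧
            (n ≤ p.1 ∧ p.2.2 ∣ M - p.1 ∧ Ch T S V (lam * V) M l k'
              (p.2.2 * p.2.1 + 2 * p.2.2 - 1) (p.1 + 1)))).card : ℝ) ≤
          2 * Y / L * (2 * B) ^ l / (lam : ℝ) ^ k' * wt L M0 (T ^ r) p.1 p.2.2 := by
        rintro ⟨n', e, d⟩ hp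
        simp only [idx, mem_filter, mem_product, mem_range, mem_Icc] at hp
        obtain ⟨⟨hn', -, hd1, hd2⟩, -⟩ := hp
        have hd0 : 0 < d := lt_of_lt_of_le hU0 hd1
        have hd0' : (0 : ℝ) < d := by exact_mod_cast hd0
        simp only
        rcases (A.filter (fun M => M ≡ M0 [MOD L] ∧
            (n ≤ n' ∧ d ∣ M - n' ∧ Ch T S V (lam * V) M l k'
              (d * e + 2 * d - 1) (n' + 1)))).eq_empty_or_nonempty with he | ⟨M1, hM1⟩
        · rw [he]
          simp only [card_empty, Nat.cast_zero]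
          have : 0 ≤ wt L M0 (T ^ r) n' d := by
            unfold wt; split_ifs
            · positivity
            · exact le_rfl
          positivity
        obtain ⟨hM1A, hM1c, hnn, hdM1, -⟩ := mem_filter.1 hM1
        obtain ⟨hTM1, -, -⟩ := hA M1 hM1A
        have hsub : ∀ {a b c q : ℕ}, c ≤ a → c ≤ b → a ≡ b [MOD q] → a - c ≡ b - c [MOD q] := by
          intro a b c q h1 h2 h3
          apply Nat.ModEq.add_right_cancel' c
          rwa [Nat.sub_add_cancel h1, Nat.sub_add_cancel h2]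
        have hg1 : Nat.gcd L d ∣ M0 - n' := by
          have h1 : M1 - n' ≡ M0 - n' [MOD Nat.gcd L d] :=
            (hsub (by omega) (by omega) hM1c).of_dvd (Nat.gcd_dvd_left _ _)
          exact (h1.dvd_iff dvd_rfl).1 ((Nat.gcd_dvd_right _ _).trans hdM1)
        have hg2 : Nat.gcd L d ≤ T ^ r := by
          have h1 : Nat.gcd L d ∣ Nat.gcd L (M0 - n') := Nat.dvd_gcd (Nat.gcd_dvd_left _ _) hg1
          have h2 := Nat.le_of_dvd (Nat.gcd_pos_of_pos_left _ hL) h1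
          have h3 := hinv n' hnn (by omega)
          have h4 : T ^ i ≤ T ^ r := Nat.pow_le_pow_right hT (by omega)
          omega
        have hlcm : 0 < Nat.lcm L d := Nat.lcm_pos hL hd0
        have hsubset : A.filter (fun M => M ≡ M0 [MOD L] ∧
            (n ≤ n' ∧ d ∣ M - n' ∧ Ch T S V (lam * V) M l k' (d * e + 2 * d - 1) (n' + 1))) ⊆
            A.filter (fun M => M ≡ M1 [MOD Nat.lcm L d] ∧
              Ch T S V (lam * V) M l k' (d * e + 2 * d - 1) (n' + 1)) := by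
          intro M hM
          obtain ⟨hMA, hMc, -, hdM, hch⟩ := mem_filter.1 hM
          obtain ⟨hTM', -, -⟩ := hA M hMA
          refine mem_filter.2 ⟨hMA, ?_, hch⟩
          have e1 : M ≡ M1 [MOD L] := hMc.trans hM1c.symm
          have e2 : M ≡ M1 [MOD d] := by
            have a1 : n' ≡ M [MOD d] := (Nat.modEq_iff_dvd' (by omega)).2 hdM
            have a2 : n' ≡ M1 [MOD d] := (Nat.modEq_iff_dvd' (by omega)).2 hdM1
            exact a1.symm.trans a2
          exact Nat.mod_lcm e1 e2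
        have hih := ih k' (d * e + 2 * d - 1) (n' + 1) (Nat.lcm L d) M1 (i + 1) hM1A hlcm
          (by omega)
          (by
            have h1 : Nat.lcm L d ≤ L * S :=
              le_trans (Nat.le_of_dvd (Nat.mul_pos hL hd0) (Nat.lcm_dvd_mul _ _))
                (Nat.mul_le_mul_left _ hd2)
            calc _ ≤ L * S * S ^ l := Nat.mul_le_mul_right _ h1
              _ = L * S ^ (l + 1) := by ring
              _ ≤ Y := hLY)
          (by
            intro n2 hn2 hn2T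
            have h1 : Nat.gcd (Nat.lcm L d) (M1 - n2) ∣ Nat.gcd L (M1 - n2) * Nat.gcd d (M1 - n2) := by
              have a1 : Nat.gcd (Nat.lcm L d) (M1 - n2) ∣ Nat.gcd (L * d) (M1 - n2) :=
                Nat.gcd_dvd_gcd_of_dvd_left _ (Nat.lcm_dvd_mul _ _)
              refine a1.trans ?_
              rw [Nat.gcd_comm (L * d), Nat.gcd_comm L, Nat.gcd_comm d]
              exact Nat.gcd_mul_right_dvd_mul_gcd _ _ _
            have h2 : Nat.gcd L (M1 - n2) = Nat.gcd L (M0 - n2) := by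
              rw [Nat.gcd_comm L, Nat.gcd_comm L]
              exact (hsub (by omega) (by omega) hM1c).gcd_eq
            have h3 : Nat.gcd d (M1 - n2) ≤ T := by
              have a1 : Nat.gcd d (M1 - n2) ∣ (M1 - n') - (M1 - n2) :=
                Nat.dvd_sub ((Nat.gcd_dvd_left _ _).trans hdM1) (Nat.gcd_dvd_right _ _)
              have a2 := Nat.le_of_dvd (by omega) a1
              omega
            have h4 := hinv n2 (by omega) hn2T
            have h5 := Nat.le_of_dvd (Nat.mul_pos (Nat.gcd_pos_of_pos_left _ hL)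
              (Nat.gcd_pos_of_pos_left _ hd0)) h1
            calc _ ≤ _ := h5
              _ ≤ T ^ i * T := by rw [h2]; exact Nat.mul_le_mul h4 h3
              _ = T ^ (i + 1) := by ring)
        refine le_trans (by exact_mod_cast card_le_card hsubset) (le_trans hih (le_of_eq ?_))
        unfold wt
        rw [if_pos ⟨hg1, hg2⟩]
        have hgl : (Nat.gcd L d : ℝ) * (Nat.lcm L d : ℝ) = L * d := by
          exact_mod_cast Nat.gcd_mul_lcm L d
        have hl' : (0 : ℝ) < Nat.lcm L d := by exact_mod_cast hlcm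
        have hge : (Nat.gcd L d : ℝ) = L * d / (Nat.lcm L d : ℝ) := by
          rw [eq_div_iff hl'.ne']; exact hgl
        rw [hge]
        field_simp
      have hsum := wt_sum L M0 (T ^ r) T S U u (2 * V * T) D h hU0 hTM hD
        (le_trans (sum_le_sum_of_subset_of_nonneg
          (Icc_subset_Icc_right (Nat.div_le_div_left hU hV)) fun _ _ _ => by positivity) hh)
      have hsum2 : (D : ℝ) / U * ((2 * V * T : ℕ) * h + (T ^ r : ℕ) * (S / U : ℕ)) ≤ B * V / U := by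
        have a1 : ((S / U : ℕ) : ℝ) ≤ (S / V : ℕ) := by exact_mod_cast Nat.div_le_div_left hU hV
        calc _ ≤ (D : ℝ) / U * ((2 * V * T : ℕ) * h + (T ^ r : ℕ) * (S / V : ℕ)) := by gcongr
          _ = (D : ℝ) / V * ((2 * V * T : ℕ) * h + (T ^ r : ℕ) * (S / V : ℕ)) * V / U := by
            field_simp
          _ ≤ _ := by gcongr
      refine le_trans ((Nat.cast_le (α := ℝ)).2 card_biUnion_le) ?_
      rw [Nat.cast_sum]
      refine le_trans (sum_le_sum hterm) ?_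
      rw [← mul_sum]
      have hpos : (0 : ℝ) ≤ 2 * Y / L * (2 * B) ^ l / (lam : ℝ) ^ k' := by positivity
      exact mul_le_mul_of_nonneg_left (le_trans hsum hsum2) hpos
    have k1 := key (lam * V) (k - 1) (Nat.le_mul_of_pos_left _ hlam)
    have k2 := key V k le_rfl
    have hmem : ∀ U n' e d : ℕ, 0 < U → U ≤ d → n' ≤ T → u ≤ d * e →
        d * e ≤ u + 2 * V * (n' - n) → d * e ≤ S → 0 < e →
        (n', e, d) ∈ idx T S U u (2 * V * T) := by
      intro U n' e d hU h1 h2 h3 h4 h5 h6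
      simp only [idx, mem_filter, mem_product, mem_range, mem_Icc]
      refine ⟨⟨by omega, ⟨h6, ?_⟩, h1, ?_⟩, h3, ?_⟩
      · rw [Nat.le_div_iff_mul_le hU]
        calc e * U ≤ e * d := Nat.mul_le_mul_left _ h1
          _ = d * e := by ring
          _ ≤ S := h5
      · exact le_trans (Nat.le_mul_of_pos_right _ h6) h5
      · have : 2 * V * (n' - n) ≤ 2 * V * T := Nat.mul_le_mul_left _ (by omega)
        omega
    have hsub : A.filter (fun M => M ≡ M0 [MOD L] ∧ Ch T S V (lam * V) M (l + 1) k u n) ⊆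
        ((idx T S (lam * V) u (2 * V * T)).biUnion (fun p => A.filter (fun M => M ≡ M0 [MOD L] ∧
          (n ≤ p.1 ∧ p.2.2 ∣ M - p.1 ∧ Ch T S V (lam * V) M l (k - 1)
            (p.2.2 * p.2.1 + 2 * p.2.2 - 1) (p.1 + 1))))) ∪
        ((idx T S V u (2 * V * T)).biUnion (fun p => A.filter (fun M => M ≡ M0 [MOD L] ∧
          (n ≤ p.1 ∧ p.2.2 ∣ M - p.1 ∧ Ch T S V (lam * V) M l k
            (p.2.2 * p.2.1 + 2 * p.2.2 - 1) (p.1 + 1))))) := by
      intro M hM
      obtain ⟨hMA, hMc, hch⟩ := mem_filter.1 hM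
      simp only [Ch] at hch
      rcases hch with hch | ⟨n', e, d, a1, a2, a3, a4, a5, a6, a7, hch⟩
      · omega
      rcases hch with ⟨b1, b2⟩ | ⟨b1, b2⟩
      · refine mem_union_left _ (mem_biUnion.2 ⟨(n', e, d),
          hmem _ _ _ _ (Nat.mul_pos hlam hV) b1 a2 a3 a4 a5 a6, ?_⟩)
        exact mem_filter.2 ⟨hMA, hMc, a1, a7, b2⟩
      · refine mem_union_right _ (mem_biUnion.2 ⟨(n', e, d),
          hmem _ _ _ _ hV b1 a2 a3 a4 a5 a6, ?_⟩)
        exact mem_filter.2 ⟨hMA, hMc, a1, a7, b2⟩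
    have hc := le_trans (card_le_card hsub) (card_union_le _ _)
    have hc' := (Nat.cast_le (α := ℝ)).2 hc
    rw [Nat.cast_add] at hc'
    refine le_trans hc' (le_trans (add_le_add k1 k2) (le_of_eq ?_))
    obtain ⟨k, rfl⟩ : ∃ k', k = k' + 1 := ⟨k - 1, by omega⟩
    simp only [Nat.add_sub_cancel]
    push_cast
    field_simp
    ring


/-- Number of steps of size at least `V` in `[a, b)`. -/
def cnt (j : ℕ → ℕ) (V a b : ℕ) : ℕ := ∑ n ∈ Ico a b, if V ≤ j n then 1 else 0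

theorem cnt_self (j : ℕ → ℕ) (V a : ℕ) : cnt j V a a = 0 := by simp [cnt]

theorem cnt_bot (j : ℕ → ℕ) (V : ℕ) {a b : ℕ} (h : a < b) :
    cnt j V a b = (if V ≤ j a then 1 else 0) + cnt j V (a + 1) b := by
  unfold cnt
  rw [sum_eq_sum_Ico_succ_bot h]

theorem cnt_top (j : ℕ → ℕ) (V : ℕ) {a b : ℕ} (h : a ≤ b) :
    cnt j V a (b + 1) = cnt j V a b + (if V ≤ j b then 1 else 0) := by
  unfold cnt
  rw [sum_Ico_succ_top h]

theorem cnt_add (j : ℕ → ℕ) (V : ℕ) {a b c : ℕ} (h1 : a ≤ b) (h2 : b ≤ c) :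
    cnt j V a c = cnt j V a b + cnt j V b c := by
  unfold cnt
  rw [sum_Ico_consecutive _ h1 h2]

theorem cnt_le (j : ℕ → ℕ) (V a b : ℕ) : cnt j V a b ≤ b - a := by
  unfold cnt
  calc _ ≤ ∑ _n ∈ Ico a b, 1 := sum_le_sum fun n _ => by split_ifs <;> omega
    _ = b - a := by simp

theorem cnt_mono (j : ℕ → ℕ) {V W : ℕ} (h : V ≤ W) (a b : ℕ) : cnt j W a b ≤ cnt j V a b := by
  unfold cnt
  exact sum_le_sum fun n _ => by split_ifs <;> omega

theorem ch_zero (T S V W M l u n : ℕ) : Ch T S V W M l 0 u n := by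
  cases l <;> simp [Ch]

theorem ch_shift {T S V W M l k u u' n : ℕ} (h1 : u ≤ u') (h2 : u' ≤ u + 2 * V)
    (h : Ch T S V W M l k u' (n + 1)) : Ch T S V W M l k u n := by
  cases l with
  | zero => simpa [Ch] using h
  | succ l =>
    simp only [Ch] at h ⊢
    rcases h with h | ⟨n', e, d, a1, a2, a3, a4, a5, a6, a7, h⟩
    · exact Or.inl h
    · refine Or.inr ⟨n', e, d, by omega, a2, by omega, ?_, a5, a6, a7, h⟩
      have : n' - n = (n' - (n + 1)) + 1 := by omega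
      rw [this, Nat.mul_add]
      omega

/-- The abstract trajectory on the time interval `[2, τ)`. -/
structure Traj (T S M τ : ℕ) (u j : ℕ → ℕ) : Prop where
  le : τ ≤ T + 1
  two : 2 ≤ τ
  start : u 2 = 2
  step : ∀ n, 2 ≤ n → n < τ → u (n + 1) + 1 = u n + 2 * j n
  pos : ∀ n, 2 ≤ n → n < τ → 0 < j n
  bdd : ∀ n, 2 ≤ n → n < τ → u n ≤ S
  dvd : ∀ n, 2 ≤ n → n < τ → j n ≤ T ∨ (j n ∣ u n ∧ j n ∣ M - n)
  fin : S < u τ

section traj

variable {T S M τ : ℕ} {u j : ℕ → ℕ}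

theorem Traj.upos (h : Traj T S M τ u j) : ∀ n, 2 ≤ n → n ≤ τ → 0 < u n := by
  intro n hn
  induction n, hn using Nat.le_induction with
  | base => intro _; rw [h.start]; omega
  | succ n hn ih =>
    intro hτ
    have h1 := h.step n hn (by omega)
    have h2 := h.pos n hn (by omega)
    have h3 := ih (by omega)
    omega

theorem Traj.ch_of_window (h : Traj T S M τ u j) {V W : ℕ} (hV : T < V) (hW : V ≤ W) {b : ℕ}
    (hb : b ≤ τ) : ∀ s a l k : ℕ, 2 ≤ a → a + s = b → cnt j V a b ≤ l → k ≤ cnt j W a b →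
      Ch T S V W M l k (u a) a := by
  intro s
  induction s with
  | zero =>
    intro a l k _ hab _ hk
    have : a = b := by omega
    subst this
    rw [cnt_self] at hk
    have : k = 0 := by omega
    subst this
    exact ch_zero ..
  | succ s ih =>
    intro a l k ha hab hl hk
    have hlt : a < b := by omega
    rw [cnt_bot j V hlt] at hl
    rw [cnt_bot j W hlt] at hk
    have h1 := h.step a ha (by omega)
    have h2 := h.pos a ha (by omega)
    have hle := h.le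
    by_cases hj : V ≤ j a
    · rw [if_pos hj] at hl
      obtain ⟨l, rfl⟩ : ∃ l', l = l' + 1 := ⟨l - 1, by omega⟩
      rcases h.dvd a ha (by omega) with h3 | ⟨⟨e, he⟩, h4⟩
      · omega
      have h5 := h.upos a ha (by omega)
      have he0 : 0 < e := by
        rcases Nat.eq_zero_or_pos e with rfl | h6
        · omega
        · exact h6
      have h6 : j a * e + 2 * j a - 1 = u (a + 1) := by omega
      simp only [Ch]
      refine Or.inr ⟨a, e, j a, le_rfl, by omega, by omega, by omega,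
        he ▸ h.bdd a ha (by omega), he0, h4, ?_⟩
      rw [h6]
      by_cases hw : W ≤ j a
      · rw [if_pos hw] at hk
        exact Or.inl ⟨hw, ih (a + 1) l (k - 1) (by omega) (by omega) (by omega) (by omega)⟩
      · rw [if_neg hw] at hk
        exact Or.inr ⟨hj, ih (a + 1) l k (by omega) (by omega) (by omega) (by omega)⟩
    · rw [if_neg hj] at hl
      rw [if_neg (by omega)] at hk
      exact ch_shift (u' := u (a + 1)) (by omega) (by omega)
        (ih (a + 1) l k (by omega) (by omega) (by omega) (by omega))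

theorem exists_exact (j : ℕ → ℕ) (W b k : ℕ) : ∀ s a : ℕ, a + s = b → k ≤ cnt j W a b →
    ∃ a', a ≤ a' ∧ a' ≤ b ∧ cnt j W a' b = k := by
  intro s
  induction s with
  | zero =>
    intro a hab hk
    have : a = b := by omega
    subst this
    rw [cnt_self] at hk
    exact ⟨a, le_rfl, le_rfl, by rw [cnt_self]; omega⟩
  | succ s ih =>
    intro a hab hk
    by_cases he : cnt j W a b = k
    · exact ⟨a, le_rfl, by omega, he⟩
    · have h1 := cnt_bot j W (show a < b by omega)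
      obtain ⟨a', h2, h3, h4⟩ := ih (a + 1) (by omega) (by split_ifs at h1 <;> omega)
      exact ⟨a', by omega, h3, h4⟩

theorem exists_window (j : ℕ → ℕ) (V W a k : ℕ) (hk : 0 < k) : ∀ b : ℕ, a ≤ b →
    (∃ a' b', a ≤ a' ∧ a' < b' ∧ b' ≤ b ∧ cnt j V a' b' ≤ 4 * k ∧ k ≤ cnt j W a' b') ∨
      4 * cnt j W a b ≤ cnt j V a b + 4 * k := by
  intro b
  induction b using Nat.strong_induction_on with
  | _ b ih =>
    intro hab
    by_cases h1 : k ≤ cnt j W a b
    · obtain ⟨a', h2, h3, h4⟩ := exists_exact j W b k (b - a) a (by omega) h1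
      have h5 : a' < b := by
        rcases Nat.lt_or_ge a' b with h | h
        · exact h
        · have : a' = b := by omega
          subst this
          rw [cnt_self] at h4
          omega
      by_cases h6 : cnt j V a' b ≤ 4 * k
      · exact Or.inl ⟨a', b, h2, h5, le_rfl, h6, h4.ge⟩
      · rcases ih a' h5 h2 with ⟨x, y, c1, c2, c3, c4, c5⟩ | h7
        · exact Or.inl ⟨x, y, c1, c2, by omega, c4, c5⟩
        · right
          rw [cnt_add j W h2 h3, cnt_add j V h2 h3]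
          omega
    · right; omega

theorem Traj.growth (h : Traj T S M τ u j) {V : ℕ} (hV : T < V) :
    ∀ n, 2 ≤ n → n ≤ τ → u n ≤ 3 ^ cnt j V 2 n * (2 * V * n) := by
  intro n hn
  induction n, hn using Nat.le_induction with
  | base => intro _; rw [h.start, cnt_self]; omega
  | succ n hn ih =>
    intro hτ
    have h1 := h.step n hn (by omega)
    have h3 := ih (by omega)
    rw [cnt_top j V hn]
    have hp : 1 ≤ 3 ^ cnt j V 2 n := Nat.one_le_pow _ _ (by omega)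
    by_cases hj : V ≤ j n
    · rw [if_pos hj, pow_succ]
      rcases h.dvd n hn (by omega) with h4 | ⟨h4, -⟩
      · omega
      have h5 := Nat.le_of_dvd (h.upos n hn (by omega)) h4
      have : 3 ^ cnt j V 2 n * (2 * V * n) ≤ 3 ^ cnt j V 2 n * (2 * V * (n + 1)) := by gcongr; omega
      nlinarith
    · rw [if_neg hj, add_zero]
      nlinarith

/-- Scale and window selection. -/
theorem Traj.exists_ch {t lam k : ℕ} (h : Traj (2 ^ t) (lam ^ (4 * t)) M τ u j) (ht : 1 ≤ t)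
    (hk : 0 < k) (hlam : 3 ^ (2 * k) * (2 * (2 ^ t + 1)) ≤ lam) :
    ∃ m ∈ Icc 1 t, ∃ a ∈ range (2 ^ t + 1), u a ≤ lam ^ (4 * t) ∧
      Ch (2 ^ t) (lam ^ (4 * t)) (lam ^ (4 * t - m - 1)) (lam * lam ^ (4 * t - m - 1)) M
        (4 * k) k (u a) a := by
  have hp : 1 ≤ 3 ^ (2 * k) := Nat.one_le_pow _ _ (by omega)
  have hTl : 2 ^ t < lam := by nlinarith
  have hl1 : 1 ≤ lam := Nat.succ_le_of_lt (lt_of_le_of_lt (Nat.zero_le _) hTl)
  have hVT : ∀ i, 1 ≤ i → 2 ^ t < lam ^ i := fun i hi =>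
    lt_of_lt_of_le hTl (Nat.le_self_pow (by omega) _)
  set C : ℕ → ℕ := fun m => cnt j (lam ^ (4 * t - m)) 2 τ with hC
  have hC1 : 2 * k < C 1 := by
    by_contra hc
    have h1 := h.growth (hVT (4 * t - 1) (by omega)) τ h.two le_rfl
    have h2 : 3 ^ cnt j (lam ^ (4 * t - 1)) 2 τ ≤ 3 ^ (2 * k) :=
      Nat.pow_le_pow_right (by omega) (by simpa [hC] using hc)
    have h3 := h.fin
    have h4 := h.le
    have h5 : lam ^ (4 * t) = lam * lam ^ (4 * t - 1) := by
      rw [← pow_succ']; congr 1; omega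
    have h6 : u τ ≤ 3 ^ (2 * k) * (2 * lam ^ (4 * t - 1) * (2 ^ t + 1)) :=
      le_trans h1 (by gcongr)
    have h7 : 3 ^ (2 * k) * (2 * (2 ^ t + 1)) * lam ^ (4 * t - 1) ≤ lam * lam ^ (4 * t - 1) :=
      Nat.mul_le_mul_right _ hlam
    nlinarith
  have hmono : ∀ m, 1 ≤ m → C 1 ≤ C m := fun m hm =>
    cnt_mono j (Nat.pow_le_pow_right hl1 (by omega)) _ _
  have hex : ∃ m ∈ Icc 1 t, C (m + 1) ≤ 2 * C m := by
    by_contra hc
    push Not at hc
    have h1 : ∀ m, m ≤ t → 2 ^ m ≤ C (m + 1) := by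
      intro m
      induction m with
      | zero => intro _; simp only [zero_add, pow_zero]; omega
      | succ m ih =>
        intro hm
        have := hc (m + 1) (mem_Icc.2 ⟨by omega, hm⟩)
        have := ih (by omega)
        rw [pow_succ]; omega
    have h2 := h1 t le_rfl
    have h3 : C (t + 1) ≤ τ - 2 := cnt_le ..
    have h4 := h.le
    have h5 : 1 ≤ 2 ^ t := Nat.one_le_two_pow
    omega
  obtain ⟨m, hm, hCm⟩ := hex
  obtain ⟨hm1, hm2⟩ := mem_Icc.1 hm
  have hW : lam * lam ^ (4 * t - m - 1) = lam ^ (4 * t - m) := by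
    rw [← pow_succ']; congr 1; omega
  have hV : 4 * t - (m + 1) = 4 * t - m - 1 := by omega
  have hCm1 := hmono m hm1
  simp only [hC, hV] at hCm hCm1 hC1
  rcases exists_window j (lam ^ (4 * t - m - 1)) (lam ^ (4 * t - m)) 2 k hk τ h.two with
    ⟨a, b, c1, c2, c3, c4, c5⟩ | hbad
  · have h4 := h.le
    refine ⟨m, hm, a, mem_range.2 (by omega), h.bdd a c1 (by omega), ?_⟩
    rw [hW]
    exact h.ch_of_window (hVT _ (by omega)) (Nat.pow_le_pow_right hl1 (by omega)) c3 (b - a) a _ _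
      c1 (by omega) c4 c5
  · omega

end traj

theorem sum_inv_le (E : ℕ) : ∑ e ∈ Icc 1 E, (1 / (e : ℝ)) ≤ 1 + Real.log E := by
  have h := harmonic_le_one_add_log E
  rw [harmonic_eq_sum_Icc] at h
  push_cast at h
  simpa only [one_div] using h

theorem sum_tau_le (Y : ℕ) :
    ∑ m ∈ Icc 1 Y, ((m.divisors.card : ℕ) : ℝ) ≤ Y * (1 + Real.log Y) := by
  have h1 : ∀ m ∈ Icc 1 Y, ((m.divisors.card : ℕ) : ℝ) =
      ∑ d ∈ Icc 1 Y, if d ∣ m then (1 : ℝ) else 0 := by
    intro m hm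
    obtain ⟨hm1, hm2⟩ := mem_Icc.1 hm
    rw [← sum_filter, sum_const, nsmul_eq_mul, mul_one]
    congr 2
    ext d
    simp only [Nat.mem_divisors, mem_filter, mem_Icc]
    constructor
    · rintro ⟨h1, h2⟩
      exact ⟨⟨Nat.pos_of_dvd_of_pos h1 hm1, le_trans (Nat.le_of_dvd hm1 h1) hm2⟩, h1⟩
    · rintro ⟨-, h1⟩
      exact ⟨h1, by omega⟩
  rw [sum_congr rfl h1, sum_comm]
  have h2 : ∀ d ∈ Icc 1 Y, (∑ m ∈ Icc 1 Y, if d ∣ m then (1 : ℝ) else 0) ≤ Y * (1 / (d : ℝ)) := by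
    intro d _
    rw [← sum_filter, sum_const, nsmul_eq_mul, mul_one]
    have : Icc 1 Y = Ioc 0 Y := rfl
    rw [this, Nat.Ioc_filter_dvd_card_eq_div, mul_one_div]
    exact Nat.cast_div_le
  refine le_trans (sum_le_sum h2) ?_
  rw [← mul_sum]
  exact mul_le_mul_of_nonneg_left (sum_inv_le Y) (by positivity)

theorem count_nongood (T Y : ℕ) (hT : 0 < T) :
    (((Icc (T + 1) Y).filter
      (fun M => ¬ ∑ n ∈ range (T + 1), (M - n).divisors.card ≤ T ^ 2)).card : ℝ) ≤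
      2 * Y * (1 + Real.log Y) / T := by
  set F := (Icc (T + 1) Y).filter
      (fun M => ¬ ∑ n ∈ range (T + 1), (M - n).divisors.card ≤ T ^ 2) with hF
  have hT' : (0 : ℝ) < T := by exact_mod_cast hT
  have hT1 : (1 : ℝ) ≤ T := by exact_mod_cast hT
  have h1 : (F.card : ℝ) * (T : ℝ) ^ 2 ≤
      ∑ M ∈ F, ∑ n ∈ range (T + 1), (((M - n).divisors.card : ℕ) : ℝ) := by
    rw [← nsmul_eq_mul, ← sum_const]
    refine sum_le_sum fun M hM => ?_
    have := (mem_filter.1 hM).2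
    exact_mod_cast (not_le.1 this).le
  have h2 : ∑ M ∈ F, ∑ n ∈ range (T + 1), (((M - n).divisors.card : ℕ) : ℝ) ≤
      (T + 1) * (Y * (1 + Real.log Y)) := by
    rw [sum_comm]
    have h3 : ∀ n ∈ range (T + 1), ∑ M ∈ F, (((M - n).divisors.card : ℕ) : ℝ) ≤
        Y * (1 + Real.log Y) := by
      intro n hn
      have hn' := mem_range.1 hn
      refine le_trans ?_ (sum_tau_le Y)
      have hinj : Set.InjOn (fun M => M - n) F := by
        intro x hx y hy hxy
        have a1 := (mem_Icc.1 (mem_filter.1 hx).1).1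
        have a2 := (mem_Icc.1 (mem_filter.1 hy).1).1
        simp only at hxy
        omega
      rw [← sum_image (f := fun m : ℕ => ((m.divisors.card : ℕ) : ℝ)) hinj]
      refine sum_le_sum_of_subset_of_nonneg ?_ fun _ _ _ => by positivity
      intro m hm
      obtain ⟨M, hM, rfl⟩ := mem_image.1 hm
      have a1 := mem_Icc.1 (mem_filter.1 hM).1
      exact mem_Icc.2 ⟨by omega, by omega⟩
    refine le_trans (sum_le_sum h3) ?_
    simp
  have h0 : (0 : ℝ) ≤ Y * (1 + Real.log Y) := by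
    have := Real.log_natCast_nonneg Y
    positivity
  rw [le_div_iff₀ hT']
  have h4 : (F.card : ℝ) * T * T ≤ 2 * Y * (1 + Real.log Y) * T := by nlinarith
  exact le_of_mul_le_mul_right h4 hT'

theorem two_pow_ge (t : ℕ) (ht : 16 ≤ t) : 160 * t ^ 2 + 1 ≤ 2 ^ t := by
  induction t, ht using Nat.le_induction with
  | base => norm_num
  | succ t ht ih => rw [pow_succ 2]; nlinarith

open Classical in
theorem count_traj (t Y : ℕ) (ht : 16 ≤ t) (hY : (((2 ^ t) ^ 40) ^ (4 * t)) ^ (36 * t) ≤ Y) :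
    ((((Icc (2 ^ t + 1) Y).filter
      (fun M => ∑ n ∈ range (2 ^ t + 1), (M - n).divisors.card ≤ (2 ^ t) ^ 2)).filter
      (fun M => ∃ τ u j, Traj (2 ^ t) (((2 ^ t) ^ 40) ^ (4 * t)) M τ u j)).card : ℝ) ≤
      Y / (2 ^ t : ℕ) := by
  have h2t := two_pow_ge t ht
  have hlam : 3 ^ (2 * (9 * t)) * (2 * (2 ^ t + 1)) ≤ (2 ^ t) ^ 40 := by
    have a1 : 3 ^ (2 * (9 * t)) ≤ (2 ^ t) ^ 29 := by
      calc 3 ^ (2 * (9 * t)) = (3 ^ 18) ^ t := by rw [← pow_mul]; congr 1; ring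
        _ ≤ (2 ^ 29) ^ t := Nat.pow_le_pow_left (by norm_num) _
        _ = (2 ^ t) ^ 29 := by rw [← pow_mul, ← pow_mul, mul_comm]
    have a2 : 2 * (2 ^ t + 1) ≤ (2 ^ t) ^ 2 := by
      have : 8 ≤ 2 ^ t := by nlinarith
      nlinarith
    calc _ ≤ (2 ^ t) ^ 29 * (2 ^ t) ^ 2 := Nat.mul_le_mul a1 a2
      _ = (2 ^ t) ^ 31 := by ring
      _ ≤ _ := Nat.pow_le_pow_right (by positivity) (by norm_num)
  have hlog : 1 + Real.log ((((2 ^ t) ^ 40) ^ (4 * t) : ℕ) : ℝ) ≤ (2 ^ t : ℕ) := by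
    have a1 : ((160 * t ^ 2 + 1 : ℕ) : ℝ) ≤ (2 ^ t : ℕ) := by exact_mod_cast h2t
    have a2 : Real.log 2 ≤ 1 := by have := Real.log_two_lt_d9; linarith
    push_cast at a1 ⊢
    simp only [Real.log_pow]
    push_cast
    have a3 : (0 : ℝ) ≤ (t : ℝ) ^ 2 := by positivity
    nlinarith
  generalize hT : 2 ^ t = T at *
  have hT8 : 8 ≤ T := by nlinarith
  have htT : t ≤ T := by nlinarith
  have hT0 : 0 < T := by omega
  have hT' : (8 : ℝ) ≤ T := by exact_mod_cast hT8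
  set lam := T ^ 40 with hlamdef
  have hlam0 : 0 < lam := by positivity
  set S := lam ^ (4 * t) with hS
  have hS0 : 0 < S := by positivity
  set A := (Icc (T + 1) Y).filter
      (fun M => ∑ n ∈ range (T + 1), (M - n).divisors.card ≤ T ^ 2) with hA
  have hAp : ∀ M ∈ A, T < M ∧ M ≤ Y ∧ ∑ n ∈ range (T + 1), (M - n).divisors.card ≤ T ^ 2 := by
    intro M hM
    obtain ⟨h1, h2⟩ := mem_filter.1 hM
    have := mem_Icc.1 h1
    exact ⟨by omega, this.2, h2⟩
  set I := Icc 1 t ×ˢ (range (T + 1) ×ˢ range (S + 1)) with hI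
  have hterm : ∀ p ∈ I, ((A.filter (fun M => Ch T S (lam ^ (4 * t - p.1 - 1))
      (lam * lam ^ (4 * t - p.1 - 1)) M (4 * (9 * t)) (9 * t) p.2.2 p.2.1)).card : ℝ) ≤
      2 * Y * ((T : ℝ) ^ 5) ^ (36 * t) / ((T : ℝ) ^ 40) ^ (9 * t) := by
    rintro ⟨m, a, u0⟩ hp
    simp only [hI, mem_product, mem_Icc] at hp
    obtain ⟨⟨hm1, hm2⟩, -⟩ := hp
    simp only
    set V := lam ^ (4 * t - m - 1) with hV
    have hV0 : 0 < V := by positivity
    rcases (A.filter (fun M => Ch T S V (lam * V) M (4 * (9 * t)) (9 * t) u0 a)).eq_empty_or_nonempty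
      with he | ⟨M0, hM0⟩
    · rw [he]
      simp only [card_empty, Nat.cast_zero]
      positivity
    have hSV : S / V = lam ^ (m + 1) := by
      rw [hS, hV, Nat.pow_div (by omega) hlam0]; congr 1; omega
    have hGE : T ^ (36 * t) * (S / V) ≤ V := by
      rw [hSV, hV, hlamdef, ← pow_mul, ← pow_mul, ← pow_add]
      exact Nat.pow_le_pow_right hT0 (by omega)
    have hV' : (0 : ℝ) < V := by exact_mod_cast hV0
    have hc := count_ch T S V lam Y (T ^ 2) (36 * t) (4 * (T : ℝ) ^ 4) T A hAp hV0 hlam0 hT0 hS0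
      (by nlinarith [pow_le_pow_left₀ (by norm_num : (0 : ℝ) ≤ 1) (by linarith : (1 : ℝ) ≤ T) 4])
      (by
        refine le_trans (sum_inv_le _) (le_trans ?_ hlog)
        have a1 : 0 < S / V := by rw [hSV]; positivity
        have a2 : ((S / V : ℕ) : ℝ) ≤ S := by exact_mod_cast Nat.div_le_self _ _
        have a3 : (0 : ℝ) < (S / V : ℕ) := by exact_mod_cast a1
        gcongr)
      (by
        have a1 : ((T ^ (36 * t) : ℕ) : ℝ) * (S / V : ℕ) ≤ V := by exact_mod_cast hGE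
        calc _ ≤ ((T ^ 2 : ℕ) : ℝ) / V * ((2 * V * T : ℕ) * (T : ℝ) + V) := by gcongr
          _ = (T : ℝ) ^ 2 * (2 * T ^ 2 + 1) := by push_cast; field_simp
          _ ≤ _ := by nlinarith [sq_nonneg ((T : ℝ) ^ 2), pow_le_pow_left₀ (by norm_num : (0 : ℝ) ≤ 1) (by linarith : (1 : ℝ) ≤ T) 2])
      (4 * (9 * t)) (9 * t) u0 a 1 M0 0 (mem_filter.1 hM0).1 one_pos (by omega)
      (by rw [one_mul, show 4 * (9 * t) = 36 * t by ring]; exact hY)
      (by intro n' _ _; simp)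
    simp only [Nat.modEq_one, true_and] at hc
    refine le_trans hc ?_
    rw [show 4 * (9 * t) = 36 * t by ring, hlamdef]
    push_cast
    rw [div_one]
    have a1 : 2 * (4 * (T : ℝ) ^ 4) ≤ (T : ℝ) ^ 5 := by
      have : (0 : ℝ) ≤ (T : ℝ) ^ 4 := by positivity
      nlinarith
    gcongr
  have hsub : A.filter (fun M => ∃ τ u j, Traj T S M τ u j) ⊆
      I.biUnion (fun p => A.filter (fun M => Ch T S (lam ^ (4 * t - p.1 - 1))
        (lam * lam ^ (4 * t - p.1 - 1)) M (4 * (9 * t)) (9 * t) p.2.2 p.2.1)) := by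
    intro M hM
    obtain ⟨hMA, τ, u, j, htr⟩ := mem_filter.1 hM
    subst hT
    obtain ⟨m, hm, a, ha, hu, hch⟩ := htr.exists_ch (k := 9 * t) (by omega) (by omega) hlam
    refine mem_biUnion.2 ⟨(m, a, u a), ?_, mem_filter.2 ⟨hMA, hch⟩⟩
    exact mem_product.2 ⟨hm, mem_product.2 ⟨ha, mem_range.2 (Nat.lt_succ_of_le hu)⟩⟩
  refine le_trans ((Nat.cast_le (α := ℝ)).2 (le_trans (card_le_card hsub) card_biUnion_le)) ?_
  rw [Nat.cast_sum]
  refine le_trans (sum_le_sum hterm) ?_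
  rw [sum_const, nsmul_eq_mul]
  have hIc : I.card * 2 * T ≤ T ^ (160 * t + 4) := by
    have a1 : I.card = t * ((T + 1) * (S + 1)) := by simp [hI]
    have a2 : S = T ^ (160 * t) := by rw [hS, hlamdef, ← pow_mul]; congr 1; ring
    rw [a1, pow_add, ← a2]
    calc t * ((T + 1) * (S + 1)) * 2 * T ≤ T * ((2 * T) * (2 * S)) * 2 * T := by
          gcongr <;> omega
      _ = S * (8 * T ^ 3) := by ring
      _ ≤ S * (T * T ^ 3) := by gcongr
      _ = S * T ^ 4 := by ring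
  have hIc' : (I.card : ℝ) * 2 * T ≤ (T : ℝ) ^ (160 * t + 4) := by exact_mod_cast hIc
  have hT0' : (0 : ℝ) < T := by linarith
  rw [le_div_iff₀ hT0', ← pow_mul, ← pow_mul]
  have hpw : (T : ℝ) ^ (160 * t + 4) * (T : ℝ) ^ (5 * (36 * t)) ≤ (T : ℝ) ^ (40 * (9 * t)) := by
    rw [← pow_add]
    exact pow_le_pow_right₀ (by linarith) (by omega)
  have hden : (0 : ℝ) < (T : ℝ) ^ (40 * (9 * t)) := by positivity
  calc _ = (I.card : ℝ) * 2 * T * (T : ℝ) ^ (5 * (36 * t)) * Y / (T : ℝ) ^ (40 * (9 * t)) := by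
        field_simp
    _ ≤ (T : ℝ) ^ (160 * t + 4) * (T : ℝ) ^ (5 * (36 * t)) * Y / (T : ℝ) ^ (40 * (9 * t)) := by
        gcongr
    _ ≤ (T : ℝ) ^ (40 * (9 * t)) * Y / (T : ℝ) ^ (40 * (9 * t)) := by gcongr
    _ = Y := by field_simp


theorem traj_of_seq {N T S : ℕ} {a : ℕ → ℤ} (hTS : T + 1 ≤ S) (hSN : S < N)
    (h1 : a 1 = (N : ℤ) - 2)
    (hrec : ∀ n : ℕ, 2 ≤ n → a n = a (n - 1) -
      ((Int.gcd (a (n - 1)) ((N : ℤ) - (-1 : ℤ) ^ n * ((N : ℤ) - (n : ℤ))) : ℕ) : ℤ))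
    {n0 : ℕ} (hn0 : 2 ≤ n0) (hn0T : n0 ≤ T) (hbad : a n0 < (N : ℤ) - S) :
    ∃ τ u j, Traj T S (2 * N) τ u j := by
  classical
  set j : ℕ → ℕ := fun n =>
    Int.gcd (a (n - 1)) ((N : ℤ) - (-1 : ℤ) ^ n * ((N : ℤ) - (n : ℤ))) with hj
  set U : ℕ → ℤ := fun n => 2 * (N : ℤ) - n - 2 * a (n - 1) with hU
  have hb : ∀ n : ℕ, (Even n ∧ (N : ℤ) - (-1 : ℤ) ^ n * ((N : ℤ) - (n : ℤ)) = n) ∨
      (N : ℤ) - (-1 : ℤ) ^ n * ((N : ℤ) - (n : ℤ)) = 2 * N - n := by
    intro n
    rcases Nat.even_or_odd n with h | h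
    · left; rw [h.neg_one_pow]; exact ⟨h, by ring⟩
    · right; rw [h.neg_one_pow]; ring
  have hpos : ∀ n, 2 ≤ n → n ≤ T → 0 < j n := by
    intro n hn hnT
    apply Int.gcd_pos_of_ne_zero_right
    rcases hb n with ⟨-, h⟩ | h <;> rw [h] <;> omega
  have hstep : ∀ n, 2 ≤ n → U (n + 1) + 1 = U n + 2 * j n := by
    intro n hn
    have := hrec n hn
    simp only [hU, hj, Nat.add_sub_cancel]
    push_cast
    linarith
  have hU2 : U 2 = 2 := by simp only [hU]; norm_num [h1]; ring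
  have hUpos : ∀ n, 2 ≤ n → n ≤ T + 1 → 0 ≤ U n := by
    intro n hn
    induction n, hn using Nat.le_induction with
    | base => intro _; omega
    | succ n hn ih =>
      intro h
      have := hstep n hn
      have := hpos n hn (by omega)
      have := ih (by omega)
      omega
  have hex : ∃ n, 2 ≤ n ∧ S < (U n).toNat := by
    refine ⟨n0 + 1, by omega, ?_⟩
    simp only [hU, Nat.add_sub_cancel]
    push_cast
    omega
  have hle : Nat.find hex ≤ n0 + 1 := by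
    apply Nat.find_min'
    refine ⟨by omega, ?_⟩
    simp only [hU, Nat.add_sub_cancel]
    push_cast
    omega
  refine ⟨Nat.find hex, fun n => (U n).toNat, j, by omega, (Nat.find_spec hex).1, by simp [hU2],
    ?_, ?_, ?_, ?_, (Nat.find_spec hex).2⟩
  · intro n hn hτ
    have := hstep n hn
    have := hUpos n hn (by omega)
    have := hUpos (n + 1) (by omega) (by omega)
    omega
  · intro n hn hτ
    exact hpos n hn (by omega)
  · intro n hn hτ
    have := Nat.find_min hex hτ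
    omega
  · intro n hn hτ
    have d1 : (j n : ℤ) ∣ a (n - 1) := Int.gcd_dvd_left _ _
    have d2 : (j n : ℤ) ∣ (N : ℤ) - (-1 : ℤ) ^ n * ((N : ℤ) - (n : ℤ)) := Int.gcd_dvd_right _ _
    rcases hb n with ⟨-, h⟩ | h
    · left
      rw [h] at d2
      have := Nat.le_of_dvd (by omega) (Int.natCast_dvd_natCast.1 d2)
      omega
    · right
      rw [h] at d2
      constructor
      · rw [← Int.natCast_dvd_natCast, Int.toNat_of_nonneg (hUpos n hn (by omega))]
        exact dvd_sub d2 (d1.mul_left 2)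
      · rw [← Int.natCast_dvd_natCast, Nat.cast_sub (by omega)]
        push_cast
        exact d2

theorem exists_t0 : ∃ t0 : ℕ, 16 ≤ t0 ∧ ∀ t : ℕ, t0 ≤ t →
    (11 + 4 * (16 * ((t : ℝ) + 1)) ^ 3) * Real.exp (16 * ((t : ℝ) + 1) / 100) ≤ (2 ^ t : ℕ) := by
  refine ⟨100000000, by norm_num, fun t ht => ?_⟩
  have ht' : (100000000 : ℝ) ≤ t := by exact_mod_cast ht
  have h1 : ((2 ^ t : ℕ) : ℝ) = Real.exp (t * Real.log 2) := by
    rw [Real.exp_nat_mul, Real.exp_log (by norm_num)]; push_cast; rfl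
  have h2 := Real.log_two_gt_d9
  have h3 : Real.exp ((t : ℝ) / 2) * Real.exp (16 * ((t : ℝ) + 1) / 100) ≤
      Real.exp (t * Real.log 2) := by
    rw [← Real.exp_add]
    apply Real.exp_le_exp.2
    nlinarith
  have h4 := Real.pow_div_factorial_le_exp ((t : ℝ) / 2) (by positivity) 4
  have h5 : 11 + 4 * (16 * ((t : ℝ) + 1)) ^ 3 ≤ ((t : ℝ) / 2) ^ 4 / (Nat.factorial 4 : ℕ) := by
    have a1 : (16 * ((t : ℝ) + 1)) ^ 3 ≤ (32 * (t : ℝ)) ^ 3 :=
      pow_le_pow_left₀ (by positivity) (by linarith) 3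
    have a2 : (1 : ℝ) ≤ (t : ℝ) ^ 3 := one_le_pow₀ (by linarith)
    have a3 : ((t : ℝ) / 2) ^ 4 / (Nat.factorial 4 : ℕ) = t * (t : ℝ) ^ 3 / 384 := by
      norm_num [Nat.factorial]; ring
    rw [a3]
    nlinarith
  rw [h1]
  refine le_trans ?_ h3
  exact mul_le_mul_of_nonneg_right (le_trans h5 h4) (Real.exp_pos _).le

theorem log_le_of_le_pow {X e : ℕ} (hX : 0 < X) (h : X ≤ 2 ^ e) :
    Real.log X ≤ e * Real.log 2 := by
  have a1 : (X : ℝ) ≤ (2 : ℝ) ^ e := by exact_mod_cast h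
  have a2 := Real.log_le_log (by exact_mod_cast hX) a1
  rwa [Real.log_pow] at a2

theorem le_log_of_pow_le {X e : ℕ} (h : 2 ^ e ≤ X) : e * Real.log 2 ≤ Real.log X := by
  have a1 : (2 : ℝ) ^ e ≤ X := by exact_mod_cast h
  have a2 := Real.log_le_log (by positivity) a1
  rwa [Real.log_pow] at a2

theorem scale_aux (t : ℕ) (ht : 16 ≤ t) :
    t < 160 * t ^ 2 ∧ 160 * t ^ 2 + 1 + t ≤ 5760 * t ^ 3 := by
  constructor <;> nlinarith

theorem pow_le_exp {t : ℕ} {x : ℝ} (h : 15 * (t : ℝ) ≤ x) :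
    ((2 ^ (160 * t ^ 2) : ℕ) : ℝ) ≤ Real.exp (x ^ 2) := by
  have a1 : ∀ e : ℕ, ((2 ^ e : ℕ) : ℝ) = Real.exp (e * Real.log 2) := by
    intro e
    rw [Real.exp_nat_mul, Real.exp_log (by norm_num)]; push_cast; rfl
  rw [a1]
  apply Real.exp_le_exp.2
  push_cast
  have hl2 := Real.log_two_lt_d9
  have a2 : (15 * (t : ℝ)) ^ 2 ≤ x ^ 2 := pow_le_pow_left₀ (by positivity) h 2
  have a3 : (0 : ℝ) ≤ (t : ℝ) ^ 2 := by positivity
  nlinarith

theorem exists_scale (t0 X : ℕ) (ht0 : 16 ≤ t0) (hX : 2 ^ (5760 * t0 ^ 3) ≤ X) :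
    ∃ t : ℕ, t0 ≤ t ∧ 2 ^ (5760 * t ^ 3) ≤ X ∧ 0 < X ∧ (15 * (t : ℝ)) ^ 3 ≤ Real.log X ∧
      Real.log X ≤ (16 * ((t : ℝ) + 1)) ^ 3 := by
  classical
  have hex : ∃ t : ℕ, X < 2 ^ (5760 * (t + 1) ^ 3) := by
    refine ⟨X, lt_of_lt_of_le Nat.lt_two_pow_self (Nat.pow_le_pow_right (by norm_num) ?_)⟩
    have : X + 1 ≤ (X + 1) ^ 3 := Nat.le_self_pow (by norm_num) _
    omega
  obtain ⟨t, hup, hmin⟩ : ∃ t : ℕ, X < 2 ^ (5760 * (t + 1) ^ 3) ∧
      ∀ s, s < t → ¬ X < 2 ^ (5760 * (s + 1) ^ 3) :=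
    ⟨Nat.find hex, Nat.find_spec hex, fun s hs => Nat.find_min hex hs⟩
  have htt : t0 ≤ t := by
    by_contra hc
    have h1 : (t + 1) ^ 3 ≤ t0 ^ 3 := Nat.pow_le_pow_left (by omega) 3
    have h2 : 2 ^ (5760 * (t + 1) ^ 3) ≤ 2 ^ (5760 * t0 ^ 3) :=
      Nat.pow_le_pow_right (by norm_num) (by omega)
    omega
  have hlow : 2 ^ (5760 * t ^ 3) ≤ X := by
    have := hmin (t - 1) (by omega)
    rw [show t - 1 + 1 = t by omega] at this
    omega
  have hX0 : 0 < X := lt_of_lt_of_le (Nat.two_pow_pos _) hlow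
  have b1 := le_log_of_pow_le hlow
  have b2 := log_le_of_le_pow hX0 hup.le
  refine ⟨t, htt, hlow, hX0, ?_⟩
  clear hex hup hmin hlow hX
  push_cast at b1 b2
  have hl1 := Real.log_two_gt_d9
  have hl2 := Real.log_two_lt_d9
  have a3 : (0 : ℝ) ≤ (t : ℝ) ^ 3 := by positivity
  have a4 : (0 : ℝ) ≤ ((t : ℝ) + 1) ^ 3 := by positivity
  constructor <;> nlinarith

theorem main : ∃ c : ℝ, 0 < c ∧ ∃ X₀ : ℕ, ∀ X : ℕ, X₀ ≤ X →
    (Set.ncard {N : ℕ | 3 ≤ N ∧ N ≤ X ∧ ∃ a : ℕ → ℤ,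
        a 1 = (N : ℤ) - 2 ∧
        (∀ n : ℕ, 2 ≤ n →
          a n = a (n - 1) -
            ((Int.gcd (a (n - 1)) ((N : ℤ) - (-1 : ℤ) ^ n * ((N : ℤ) - (n : ℤ))) : ℕ) : ℤ)) ∧
        ∃ n : ℕ, 2 ≤ n ∧ (n : ℝ) ≤ Real.exp (c * Real.log X ^ (1 / 3 : ℝ)) ∧
          (a n = 0 ∨ (a n : ℝ) < N - Real.exp (Real.log X ^ (2 / 3 : ℝ)))} : ℝ) ≤
      X * Real.exp (-(c * Real.log X ^ (1 / 3 : ℝ))) := by
  classical
  obtain ⟨t0, ht0, hbig⟩ := exists_t0
  refine ⟨1 / 100, by norm_num, 2 ^ (5760 * t0 ^ 3), fun X hX => ?_⟩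
  obtain ⟨t, htt, hlow, hX0, hLlow, hLup⟩ := exists_scale t0 X ht0 hX
  have ht : 16 ≤ t := le_trans ht0 htt
  have hSeq : ((2 ^ t) ^ 40) ^ (4 * t) = 2 ^ (160 * t ^ 2) := by
    rw [← pow_mul, ← pow_mul, show t * (40 * (4 * t)) = 160 * t ^ 2 by ring]
  have hc2 := count_traj t (2 * X) ht (by
    rw [hSeq, ← pow_mul, show 160 * t ^ 2 * (36 * t) = 5760 * t ^ 3 by ring]; omega)
  have hTS : 2 ^ t + 1 ≤ ((2 ^ t) ^ 40) ^ (4 * t) := by
    rw [hSeq]
    exact Nat.pow_lt_pow_right (by norm_num) (scale_aux t ht).1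
  have hSX : (((2 ^ t) ^ 40) ^ (4 * t) + 1) * 2 ^ t ≤ X := by
    rw [hSeq]
    have a1 : 2 ^ (160 * t ^ 2) + 1 ≤ 2 ^ (160 * t ^ 2 + 1) :=
      Nat.pow_lt_pow_right (by norm_num) (Nat.lt_succ_self _)
    calc _ ≤ 2 ^ (160 * t ^ 2 + 1) * 2 ^ t := Nat.mul_le_mul_right _ a1
      _ = 2 ^ (160 * t ^ 2 + 1 + t) := by rw [← pow_add]
      _ ≤ 2 ^ (5760 * t ^ 3) := Nat.pow_le_pow_right (by norm_num) (scale_aux t ht).2
      _ ≤ X := hlow
  have hSexp0 : ∀ x : ℝ, 15 * (t : ℝ) ≤ x →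
      ((((2 ^ t) ^ 40) ^ (4 * t) : ℕ) : ℝ) ≤ Real.exp (x ^ 2) := fun x hx => by
    rw [hSeq]; exact pow_le_exp hx
  clear hX hlow hSeq
  generalize ((2 ^ t) ^ 40) ^ (4 * t) = S at hc2 hSexp0 hTS hSX
  have ht' : (16 : ℝ) ≤ t := by exact_mod_cast ht
  have hX' : (0 : ℝ) < X := by exact_mod_cast hX0
  have hl2 := Real.log_two_lt_d9
  have hL0 : 0 ≤ Real.log X := Real.log_natCast_nonneg X
  set x := Real.log X ^ (1 / 3 : ℝ) with hx
  have hx0 : 0 ≤ x := Real.rpow_nonneg hL0 _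
  have hx3 : x ^ 3 = Real.log X := by
    rw [hx, ← Real.rpow_natCast, ← Real.rpow_mul hL0]; norm_num
  have hx2 : Real.log X ^ (2 / 3 : ℝ) = x ^ 2 := by
    rw [hx, ← Real.rpow_natCast, ← Real.rpow_mul hL0]; norm_num
  have hxlow : 15 * (t : ℝ) ≤ x :=
    le_of_pow_le_pow_left₀ (n := 3) (by norm_num) hx0 (by rw [hx3]; exact hLlow)
  have hxup : x ≤ 16 * ((t : ℝ) + 1) :=
    le_of_pow_le_pow_left₀ (n := 3) (by norm_num) (by positivity) (by rw [hx3]; exact hLup)
  have hb := hbig t htt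
  have hexpT : Real.exp (1 / 100 * x) ≤ Real.exp (16 * ((t : ℝ) + 1) / 100) :=
    Real.exp_le_exp.2 (by linarith)
  have hc1 := count_nongood (2 ^ t) (2 * X) (by positivity)
  have hSexp := hSexp0 x hxlow
  have hT0 : 0 < 2 ^ t := by positivity
  generalize 2 ^ t = T at hb hc1 hc2 hTS hSX hT0
  have hT' : (0 : ℝ) < T := by exact_mod_cast hT0
  set F1 := (Icc (T + 1) (2 * X)).filter
      (fun M => ¬ ∑ n ∈ range (T + 1), (M - n).divisors.card ≤ T ^ 2) with hF1
  set F2 := ((Icc (T + 1) (2 * X)).filter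
      (fun M => ∑ n ∈ range (T + 1), (M - n).divisors.card ≤ T ^ 2)).filter
      (fun M => ∃ τ u j, Traj T S M τ u j) with hF2
  have hpoly : (1 : ℝ) ≤ 11 + 4 * (16 * ((t : ℝ) + 1)) ^ 3 := by
    have : (0 : ℝ) ≤ (16 * ((t : ℝ) + 1)) ^ 3 := by positivity
    linarith
  have hE := Real.exp_pos (1 / 100 * x)
  refine le_trans ((Nat.cast_le (α := ℝ)).2 (Set.ncard_le_ncard
    (t := ((range (S + 1) ∪ (F1 ∪ F2).image (· / 2) : Finset ℕ) : Set ℕ)) ?_
    (Finset.finite_toSet _))) ?_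
  · rintro N ⟨-, hNX, a, h1, hrec, n, hn2, hnT, hbad⟩
    rw [mem_coe, mem_union]
    by_cases hNS : N ≤ S
    · exact Or.inl (mem_range.2 (by omega))
    right
    have hnT' : n ≤ T := by
      have : (n : ℝ) ≤ T := by nlinarith
      exact_mod_cast this
    have hbad' : a n < (N : ℤ) - S := by
      rcases hbad with h | h
      · omega
      · rw [hx2] at h
        have : (a n : ℝ) < (N : ℝ) - S := by linarith
        exact_mod_cast this
    have htr := traj_of_seq hTS (by omega) h1 hrec hn2 hnT' hbad'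
    refine mem_image.2 ⟨2 * N, ?_, by omega⟩
    have hI : 2 * N ∈ Icc (T + 1) (2 * X) := mem_Icc.2 ⟨by omega, by omega⟩
    by_cases hg : ∑ n ∈ range (T + 1), (2 * N - n).divisors.card ≤ T ^ 2
    · exact mem_union_right _ (mem_filter.2 ⟨mem_filter.2 ⟨hI, hg⟩, htr⟩)
    · exact mem_union_left _ (mem_filter.2 ⟨hI, hg⟩)
  · rw [Set.ncard_coe_finset]
    have a1 : (range (S + 1) ∪ (F1 ∪ F2).image (· / 2)).card ≤ (S + 1) + (F1.card + F2.card) := by
      refine le_trans (card_union_le _ _) ?_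
      rw [card_range]
      exact Nat.add_le_add_left (le_trans card_image_le (card_union_le _ _)) _
    have a2 : (((range (S + 1) ∪ (F1 ∪ F2).image (· / 2)).card : ℕ) : ℝ) ≤
        ((S + 1 : ℕ) : ℝ) + (F1.card + F2.card) := by exact_mod_cast a1
    have a3 : ((S + 1 : ℕ) : ℝ) ≤ X / T := by
      rw [le_div_iff₀ hT']; exact_mod_cast hSX
    have a4 : Real.log ((2 * X : ℕ) : ℝ) ≤ 1 + (16 * ((t : ℝ) + 1)) ^ 3 := by
      push_cast
      rw [Real.log_mul (by norm_num) hX'.ne']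
      linarith
    have a5 : (F1.card : ℝ) ≤ X / T * (8 + 4 * (16 * ((t : ℝ) + 1)) ^ 3) := by
      refine le_trans hc1 ?_
      calc _ ≤ 2 * ((2 * X : ℕ) : ℝ) * (1 + (1 + (16 * ((t : ℝ) + 1)) ^ 3)) / T := by gcongr
        _ = _ := by push_cast; ring
    have a6 : (F2.card : ℝ) ≤ X / T * 2 := by
      refine le_trans hc2 (le_of_eq ?_)
      push_cast; ring
    have a7 : (X : ℝ) / T * (11 + 4 * (16 * ((t : ℝ) + 1)) ^ 3) ≤
        X * Real.exp (-(1 / 100 * x)) := by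
      rw [Real.exp_neg, div_mul_eq_mul_div, mul_div_assoc]
      refine mul_le_mul_of_nonneg_left ?_ hX'.le
      rw [div_le_iff₀ hT', ← div_eq_inv_mul, le_div_iff₀ hE]
      refine le_trans ?_ hb
      gcongr
    linarith


end Pool.Agent.MP_b5e119_nt.H62
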